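import Mathlib

set_option autoImplicit false

/-!
Small integer solutions of systems of linear equations (the sharp bound of Borosh, Flahive, Rubin
and Treybig): if the vectors `a i` span the free abelian group `M` and all determinants of
`m`-tuples of the vectors `a i`, `b` are at most `Y` in absolute value, then `b` is a combination of
the `a i` with integer coefficients of absolute value at most `Y`.
-/

namespace Pool.Agent.U280.SmallSol

open Module

/-- the independent case (Cramer's rule) -/
lemma small_of_linearIndependent (Y : ℤ) {n m : ℕ} {M : Type} [AddCommGroup M]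
    (e : Basis (Fin m) ℤ M) (a : Fin n → M) (b : M) (hs : Submodule.span ℤ (Set.range a) = ⊤)
    (hli : LinearIndependent ℤ a)
    (hY : ∀ v : Fin m → M, (∀ k, v k = b ∨ ∃ i, v k = a i) → |e.det v| ≤ Y) :
    ∃ y : Fin n → ℤ, ∑ i, y i • a i = b ∧ ∀ i, |y i| ≤ Y := by
  classical
  set f : Basis (Fin n) ℤ M := Basis.mk hli hs.ge with hf
  have hfa : ∀ i, f i = a i := fun i => by rw [hf, Basis.mk_apply]
  have hmn : m = n := by
    have h1 := Module.finrank_eq_card_basis e
    have h2 := Module.finrank_eq_card_basis f
    simp only [Fintype.card_fin] at h1 h2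
    omega
  subst hmn
  refine ⟨fun i => f.repr b i, ?_, fun j => ?_⟩
  · have := f.sum_repr b
    simp only [hfa] at this
    exact this
  · have hu : IsUnit (e.det f) := by
      rw [← Basis.is_basis_iff_det]
      exact ⟨f.linearIndependent, f.span_eq⟩
    have hu1 : |e.det f| = 1 := Int.isUnit_iff_abs_eq.mp hu
    have hb : b = ∑ i, f.repr b i • f i := (f.sum_repr b).symm
    have h1 : e.det (Function.update (f : Fin m → M) j b) = f.repr b j * e.det f := by
      conv_lhs => rw [hb]
      rw [AlternatingMap.map_update_sum]
      rw [Finset.sum_eq_single j]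
      · rw [AlternatingMap.map_update_smul, Function.update_eq_self, smul_eq_mul]
      · intro i _ hij
        rw [AlternatingMap.map_update_smul, AlternatingMap.map_update_self _ _ hij.symm, smul_zero]
      · intro h; exact absurd (Finset.mem_univ _) h
    have h2 := hY (Function.update (f : Fin m → M) j b) (fun k => by
      by_cases hk : k = j
      · left; rw [hk, Function.update_self]
      · right; exact ⟨k, by rw [Function.update_of_ne hk, hfa]⟩)
    rw [h1, abs_mul, hu1, mul_one] at h2
    exact h2

/-- Cramer: the determinant of a family multiplies the module into its span -/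
lemma det_smul_mem {m : ℕ} {M : Type} [AddCommGroup M] (e : Basis (Fin m) ℤ M) (w : Fin m → M)
    (v : M) : e.det w • v ∈ Submodule.span ℤ (Set.range w) := by
  classical
  have hbasis : ∀ j, e.det w • e j ∈ Submodule.span ℤ (Set.range w) := by
    intro j
    have h1 : e.det w • e j = ∑ k, (e.toMatrix w).adjugate k j • w k := by
      have h2 : ∀ k, w k = ∑ i, e.toMatrix w i k • e i := fun k => by
        simp only [Basis.toMatrix_apply]
        exact (e.sum_repr (w k)).symm
      calc e.det w • e j = ∑ i, ((e.toMatrix w) * (e.toMatrix w).adjugate) i j • e i := by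
            rw [Matrix.mul_adjugate]
            rw [Finset.sum_eq_single j]
            · simp [Basis.det_apply]
            · intro i _ hij
              simp [hij]
            · intro h; exact absurd (Finset.mem_univ _) h
        _ = ∑ i, ∑ k, ((e.toMatrix w) i k * (e.toMatrix w).adjugate k j) • e i := by
            refine Finset.sum_congr rfl fun i _ => ?_
            rw [Matrix.mul_apply, Finset.sum_smul]
        _ = ∑ k, ∑ i, ((e.toMatrix w) i k * (e.toMatrix w).adjugate k j) • e i :=
            Finset.sum_comm
        _ = ∑ k, (e.toMatrix w).adjugate k j • w k := by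
            refine Finset.sum_congr rfl fun k _ => ?_
            conv_rhs => rw [h2 k]
            rw [Finset.smul_sum]
            refine Finset.sum_congr rfl fun i _ => ?_
            rw [smul_smul, mul_comm]
    rw [h1]
    exact Submodule.sum_mem _ fun k _ =>
      Submodule.smul_mem _ _ (Submodule.subset_span (Set.mem_range_self k))
  rw [← e.sum_repr v, Finset.smul_sum]
  refine Submodule.sum_mem _ fun j _ => ?_
  rw [smul_comm]
  exact Submodule.smul_mem _ _ (hbasis j)

theorem exists_small_solution (Y : ℤ) : ∀ (n : ℕ) (M : Type) [AddCommGroup M] (m : ℕ)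
    (e : Basis (Fin m) ℤ M) (a : Fin n → M) (b : M), Submodule.span ℤ (Set.range a) = ⊤ →
    (∀ v : Fin m → M, (∀ k, v k = b ∨ ∃ i, v k = a i) → |e.det v| ≤ Y) →
    ∃ y : Fin n → ℤ, ∑ i, y i • a i = b ∧ ∀ i, |y i| ≤ Y := by
  classical
  intro n
  induction n with
  | zero =>
    intro M _ m e a b hs hY
    exact small_of_linearIndependent Y e a b hs linearIndependent_empty_type hY
  | succ n ih =>
    intro M _ m e a b hs hY
    by_cases hli : LinearIndependent ℤ a
    · exact small_of_linearIndependent Y e a b hs hli hY
    have hfree : Module.Free ℤ M := Module.Free.of_basis e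
    have hfin : Module.Finite ℤ M := Module.Finite.of_basis e
    have hY0 : 0 ≤ Y := (abs_nonneg _).trans (hY (fun _ => b) (fun _ => Or.inl rfl))
    obtain ⟨c, hc, i0, hi0⟩ := Fintype.not_linearIndependent_iff.mp hli
    -- an integer solution
    obtain ⟨x, hx⟩ : ∃ x : Fin (n + 1) → ℤ, ∑ i, x i • a i = b := by
      have : b ∈ Submodule.span ℤ (Set.range a) := by rw [hs]; trivial
      exact (Submodule.mem_span_range_iff_exists_fun ℤ).mp this
    set M' : Submodule ℤ M := Submodule.span ℤ (Set.range (a ∘ i0.succAbove)) with hM'
    have hmem : ∀ j, a (i0.succAbove j) ∈ M' := fun j =>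
      Submodule.subset_span ⟨j, rfl⟩
    have hca : c i0 • a i0 ∈ M' := by
      rw [Fin.sum_univ_succAbove _ i0] at hc
      have : c i0 • a i0 = -∑ j, c (i0.succAbove j) • a (i0.succAbove j) := by
        rw [eq_neg_iff_add_eq_zero]; exact hc
      rw [this]
      exact Submodule.neg_mem _ (Submodule.sum_mem _ fun j _ => Submodule.smul_mem _ _ (hmem j))
    have hcM : ∀ v : M, c i0 • v ∈ M' := by
      intro v
      have hv : v ∈ Submodule.span ℤ (Set.range a) := by rw [hs]; trivial
      induction hv using Submodule.span_induction with
      | mem v hv =>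
        obtain ⟨i, rfl⟩ := hv
        by_cases hi : i = i0
        · rw [hi]; exact hca
        · obtain ⟨j, rfl⟩ := Fin.exists_succAbove_eq hi
          exact Submodule.smul_mem _ _ (hmem j)
      | zero => rw [smul_zero]; exact Submodule.zero_mem _
      | add u v _ _ hu hv => rw [smul_add]; exact Submodule.add_mem _ hu hv
      | smul r v _ hv => rw [smul_comm]; exact Submodule.smul_mem _ _ hv
    have hrank : Module.finrank ℤ M' = m := by
      have h1 : Module.finrank ℤ M = m := by
        rw [Module.finrank_eq_card_basis e, Fintype.card_fin]
      refine le_antisymm ?_ ?_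
      · rw [← h1]
        exact Submodule.finrank_le M'
      · rw [← h1]
        let f : M →ₗ[ℤ] M' := LinearMap.codRestrict M' (c i0 • LinearMap.id) (fun v => hcM v)
        refine LinearMap.finrank_le_finrank_of_injective (f := f) ?_
        intro u v huv
        have h2 : c i0 • u = c i0 • v := congrArg Subtype.val huv
        exact smul_right_injective M hi0 h2
    let e' : Basis (Fin m) ℤ M' := Module.finBasisOfFinrankEq ℤ M' hrank
    set g : ℤ := e.det (fun k => (e' k : M)) with hg
    have hdet : ∀ w : Fin m → M', e.det (fun k => (w k : M)) = g * e'.det w := by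
      intro w
      have := AlternatingMap.eq_smul_basis_det e' (e.det.compLinearMap M'.subtype)
      have h2 := DFunLike.congr_fun this w
      simpa [AlternatingMap.compLinearMap_apply, Function.comp_def, hg] using h2
    have hg0 : g ≠ 0 := by
      intro h0
      have h1 := hdet (fun k => ⟨c i0 • e k, hcM (e k)⟩)
      rw [h0, zero_mul] at h1
      have h2 : e.det (fun k => c i0 • e k) = (∏ _k : Fin m, c i0) • e.det e :=
        AlternatingMap.map_smul_univ e.det (fun _ => c i0) (fun k => e k)
      rw [h2, Basis.det_self, smul_eq_mul, mul_one] at h1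
      exact (Finset.prod_ne_zero_iff.mpr fun _ _ => hi0) h1
    have hgM : ∀ v : M, g • v ∈ M' := by
      intro v
      refine Submodule.span_le.mpr ?_ (det_smul_mem e (fun k => (e' k : M)) v)
      rintro _ ⟨k, rfl⟩
      exact (e' k).2
    set y0 : ℤ := x i0 % g with hy0
    have hy0a : 0 ≤ y0 := Int.emod_nonneg _ hg0
    have hy0b : y0 < |g| := Int.emod_lt_abs _ hg0
    have hb' : b - y0 • a i0 ∈ M' := by
      have h1 : b - y0 • a i0 = g • ((x i0 / g) • a i0) +
          ∑ j, x (i0.succAbove j) • a (i0.succAbove j) := by
        rw [← hx, Fin.sum_univ_succAbove _ i0, smul_smul]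
        have h2 : x i0 = g * (x i0 / g) + y0 := by
          rw [hy0]; exact (Int.mul_ediv_add_emod (x i0) g).symm
        conv_lhs => rw [h2]
        rw [add_smul]
        abel
      rw [h1]
      exact Submodule.add_mem _ (hgM _) (Submodule.sum_mem _ fun j _ =>
        Submodule.smul_mem _ _ (hmem j))
    let a' : Fin n → M' := fun j => ⟨a (i0.succAbove j), hmem j⟩
    let b' : M' := ⟨b - y0 • a i0, hb'⟩
    have hs' : Submodule.span ℤ (Set.range a') = ⊤ := by
      have h1 : Set.range a' = (Subtype.val ⁻¹' (Set.range (a ∘ i0.succAbove)) : Set M') := by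
        ext u
        constructor
        · rintro ⟨j, rfl⟩; exact ⟨j, rfl⟩
        · rintro ⟨j, hj⟩; exact ⟨j, Subtype.ext hj⟩
      rw [h1]
      exact Submodule.span_span_coe_preimage
    have hY' : ∀ v : Fin m → M', (∀ k, v k = b' ∨ ∃ i, v k = a' i) → |e'.det v| ≤ Y := by
      intro v hv
      have hmain : |e.det (fun k => (v k : M))| ≤ (1 + y0) * Y := by
        by_cases hall : ∀ k, ∃ i, v k = a' i
        · refine (hY _ fun k => ?_).trans ?_
          · obtain ⟨i, hi⟩ := hall k
            exact Or.inr ⟨i0.succAbove i, by rw [hi]⟩
          · nlinarith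
        · push Not at hall
          obtain ⟨k0, hk0⟩ := hall
          have hk0' : v k0 = b' := by
            rcases hv k0 with h | ⟨i, hi⟩
            · exact h
            · exact absurd hi (hk0 i)
          by_cases hoth : ∀ k, k ≠ k0 → ∃ i, v k = a' i
          · have hupd : (fun k => (v k : M)) =
                Function.update (fun k => (v k : M)) k0 (b - y0 • a i0) := by
              funext k
              by_cases hk : k = k0
              · rw [hk, Function.update_self, hk0']
              · rw [Function.update_of_ne hk]
            rw [hupd, AlternatingMap.map_update_sub, AlternatingMap.map_update_smul]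
            have h1 := hY (Function.update (fun k => (v k : M)) k0 b) (fun k => by
              by_cases hk : k = k0
              · left; rw [hk, Function.update_self]
              · right
                obtain ⟨i, hi⟩ := hoth k hk
                exact ⟨i0.succAbove i, by rw [Function.update_of_ne hk, hi]⟩)
            have h2 := hY (Function.update (fun k => (v k : M)) k0 (a i0)) (fun k => by
              by_cases hk : k = k0
              · right; exact ⟨i0, by rw [hk, Function.update_self]⟩
              · right
                obtain ⟨i, hi⟩ := hoth k hk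
                exact ⟨i0.succAbove i, by rw [Function.update_of_ne hk, hi]⟩)
            rw [smul_eq_mul]
            refine (abs_sub _ _).trans ?_
            rw [abs_mul, abs_of_nonneg hy0a]
            nlinarith
          · push Not at hoth
            obtain ⟨k1, hk1, hk1'⟩ := hoth
            have hk1'' : v k1 = b' := by
              rcases hv k1 with h | ⟨i, hi⟩
              · exact h
              · exact absurd hi (hk1' i)
            have h0 : e.det (fun k => (v k : M)) = 0 :=
              AlternatingMap.map_eq_zero_of_eq _ _ (by rw [hk0', hk1'']) hk1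
            rw [h0, abs_zero]
            positivity
      rw [hdet, abs_mul] at hmain
      have h3 : (1 + y0) * Y ≤ |g| * Y := mul_le_mul_of_nonneg_right (by omega) hY0
      have h4 : |g| * |e'.det v| ≤ |g| * Y := hmain.trans h3
      exact le_of_mul_le_mul_left h4 (abs_pos.mpr hg0)
    -- some determinant of the `a'` is nonzero
    have hgY : |g| ≤ Y := by
      have hex : ∃ r : Fin m → Fin n, e'.det (fun k => a' (r k)) ≠ 0 := by
        by_contra hcon
        push Not at hcon
        have hz : ∀ k, ∃ z : Fin n → ℤ, ∑ j, z j • a' j = e' k := fun k => by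
          have : e' k ∈ Submodule.span ℤ (Set.range a') := by rw [hs']; trivial
          exact (Submodule.mem_span_range_iff_exists_fun ℤ).mp this
        choose z hz using hz
        have h1 : e'.det e' = 1 := Basis.det_self e'
        have h2 : (e' : Fin m → M') = fun k => ∑ j, z k j • a' j := funext fun k => (hz k).symm
        rw [h2] at h1
        have h3 : e'.det (fun k => ∑ j, z k j • a' j) =
            ∑ r : Fin m → Fin n, e'.det (fun k => z k (r k) • a' (r k)) :=
          MultilinearMap.map_sum e'.det.toMultilinearMap (fun k j => z k j • a' j)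
        have h4 : ∀ r : Fin m → Fin n, e'.det (fun k => z k (r k) • a' (r k)) = 0 := by
          intro r
          have := AlternatingMap.map_smul_univ e'.det (fun k => z k (r k)) (fun k => a' (r k))
          rw [this, hcon, smul_zero]
        rw [h3, Finset.sum_eq_zero (fun r _ => h4 r)] at h1
        exact zero_ne_one h1
      obtain ⟨r, hr⟩ := hex
      have h1 := hY (fun k => (a' (r k) : M)) (fun k => Or.inr ⟨i0.succAbove (r k), rfl⟩)
      rw [hdet, abs_mul] at h1
      have h2 : 1 ≤ |e'.det (fun k => a' (r k))| := Int.one_le_abs hr
      nlinarith [abs_nonneg g]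
    obtain ⟨y, hy, hyY⟩ := ih M' m e' a' b' hs' hY'
    refine ⟨i0.insertNth y0 y, ?_, ?_⟩
    · rw [Fin.sum_univ_succAbove _ i0]
      simp only [Fin.insertNth_apply_same, Fin.insertNth_apply_succAbove]
      have h1 := congrArg Subtype.val hy
      simp only [a', b', AddSubmonoidClass.coe_finsetSum, Submodule.coe_smul] at h1
      rw [h1]
      abel
    · intro i
      by_cases hi : i = i0
      · rw [hi, Fin.insertNth_apply_same, abs_of_nonneg hy0a]
        omega
      · obtain ⟨j, rfl⟩ := Fin.exists_succAbove_eq hi
        rw [Fin.insertNth_apply_succAbove]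
        exact hyY j

end Pool.Agent.U280.SmallSol
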