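import Pool.Agent.U280.SmallSol.Graph
import Pool.Agent.U280.SmallSol.Bound

set_option autoImplicit false

/-!
Small integer solutions of systems of equations `z_i = 1`, `z_i + z_j = z_k`.
-/

namespace Pool.Agent.U280.SmallSol

open Module

/-- independent integer vectors have a nonzero maximal minor -/
lemma exists_rows {T : Type} {m : ℕ} (u : Fin m → T → ℤ) (hu : LinearIndependent ℤ u) :
    ∃ R : Fin m → T, Matrix.det (Matrix.of fun k l => u k (R l)) ≠ 0 := by
  classical
  let uq : Fin m → T → ℚ := fun k t => (u k t : ℚ)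
  have huq : LinearIndependent ℚ uq := by
    rw [← LinearIndependent.iff_fractionRing ℤ ℚ]
    let φ : (T → ℤ) →ₗ[ℤ] (T → ℚ) :=
      { toFun := fun f t => (f t : ℚ)
        map_add' := fun f g => by ext t; simp
        map_smul' := fun r f => by ext t; simp }
    have hφ : Function.Injective φ := by
      intro f g hfg
      funext t
      have := congrFun hfg t
      exact Int.cast_injective this
    exact hu.map' φ (LinearMap.ker_eq_bot.mpr hφ)
  let w : T → Fin m → ℚ := fun t k => (u k t : ℚ)
  have hspan : Submodule.span ℚ (Set.range w) = ⊤ := by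
    by_contra hcon
    obtain ⟨f, hf0, hf⟩ := Submodule.exists_le_ker_of_lt_top _ (lt_top_iff_ne_top.mpr hcon)
    apply hf0
    have h1 : ∀ t, ∑ k, f (Pi.single k 1) * (u k t : ℚ) = 0 := by
      intro t
      have h2 : f (w t) = 0 := hf (Submodule.subset_span ⟨t, rfl⟩)
      have h3 : w t = ∑ k, w t k • (Pi.single k (1 : ℚ) : Fin m → ℚ) := by
        ext j; simp [Pi.single_apply]
      rw [h3, map_sum] at h2
      rw [← h2]
      refine Finset.sum_congr rfl fun k _ => ?_
      rw [map_smul, smul_eq_mul, mul_comm]
    have h4 := Fintype.linearIndependent_iff.mp huq (fun k => f (Pi.single k 1)) (by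
      ext t
      rw [Finset.sum_apply]
      simpa [uq] using h1 t)
    refine LinearMap.pi_ext' fun k => ?_
    ext
    simpa using h4 k
  obtain ⟨κ, a, -, hsp, hli⟩ := exists_linearIndependent' ℚ w
  rw [hspan] at hsp
  let b : Basis κ ℚ (Fin m → ℚ) := Basis.mk hli hsp.ge
  let eqv : κ ≃ Fin m := b.indexEquiv (Pi.basisFun ℚ (Fin m))
  refine ⟨fun l => a (eqv.symm l), ?_⟩
  have h1 : LinearIndependent ℚ (fun l => w (a (eqv.symm l))) :=
    hli.comp (eqv.symm) eqv.symm.injective
  have h2 : IsUnit (Matrix.of fun l k => w (a (eqv.symm l)) k) :=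
    Matrix.linearIndependent_rows_iff_isUnit.mp h1
  intro h0
  have h3 := (Matrix.isUnit_iff_isUnit_det _).mp h2
  rw [isUnit_iff_ne_zero] at h3
  apply h3
  have h4 : (Matrix.of fun l k => w (a (eqv.symm l)) k) =
      ((Matrix.of fun k l => u k (a (eqv.symm l))).transpose).map (Int.castRingHom ℚ) := by
    ext l k
    simp [w]
  rw [h4, ← RingHom.mapMatrix_apply, ← RingHom.map_det, Matrix.det_transpose, h0, map_zero]

theorem main (n : ℕ) (x : Fin n → ℤ) :
    ∃ y : Fin n → ℤ, (∀ i, |y i| ≤ 2 ^ (n - 1)) ∧ (∀ i, x i = 1 → y i = 1) ∧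
      (∀ i j k, x i + x j = x k → y i + y j = y k) := by
  classical
  by_cases hU : ∀ i, x i ≠ 1
  · exact ⟨fun _ => 0, fun i => by rw [abs_zero]; positivity, fun i h => absurd h (hU i),
      fun i j k _ => by simp⟩
  push Not at hU
  obtain ⟨u0, hu0⟩ := hU
  -- the unknowns
  let V := {i : Fin n // x i ≠ 1}
  set N : ℕ := Fintype.card V with hN
  have hNn : N ≤ n - 1 := by
    have h1 : Fintype.card V < Fintype.card (Fin n) :=
      Fintype.card_lt_of_injective_not_surjective (Subtype.val : V → Fin n)
        Subtype.val_injective (by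
          intro hsurj
          obtain ⟨⟨i, hi⟩, h⟩ := hsurj u0
          exact hi (by rw [← hu0]; exact congrArg x h))
    rw [Fintype.card_fin] at h1
    omega
  let φ : V ≃ Fin N := Fintype.equivFin V
  -- the equations
  let T := {t : Fin n × Fin n × Fin n // x t.1 + x t.2.1 = x t.2.2}
  let col : Fin n → T → ℤ := fun i t =>
    (if t.1.1 = i then 1 else 0) + (if t.1.2.1 = i then 1 else 0) - (if t.1.2.2 = i then 1 else 0)
  have hcol : ∀ (z : Fin n → ℤ) (t : T), ∑ i, z i * col i t = z t.1.1 + z t.1.2.1 - z t.1.2.2 := by
    intro z t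
    simp only [col, mul_sub, mul_add, Finset.sum_sub_distrib, Finset.sum_add_distrib, mul_ite,
      mul_one, mul_zero, Finset.sum_ite_eq, Finset.mem_univ, if_true]
  -- splitting sums over `Fin n`
  have hsplit : ∀ (F : Fin n → ℤ), ∑ i, F i = (∑ i with x i = 1, F i) + ∑ j : Fin N, F (φ.symm j) := by
    intro F
    rw [← Finset.sum_filter_add_sum_filter_not Finset.univ (fun i => x i = 1)]
    congr 1
    rw [Equiv.sum_comp φ.symm (fun v : V => F v)]
    exact (Finset.sum_subtype _ (fun i => by simp) F)
  let a : Fin N → T → ℤ := fun j => col (φ.symm j)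
  let b : T → ℤ := fun t => -∑ i with x i = 1, col i t
  have hxab : ∑ j, x (φ.symm j) • a j = b := by
    ext t
    rw [Finset.sum_apply]
    have h1 := hcol x t
    rw [hsplit] at h1
    have h2 : x t.1.1 + x t.1.2.1 - x t.1.2.2 = 0 := by rw [t.2]; ring
    have h3 : (∑ i with x i = 1, x i * col i t) = ∑ i with x i = 1, col i t :=
      Finset.sum_congr rfl fun i hi => by
        rw [(Finset.mem_filter.mp hi).2, one_mul]
    rw [h2, h3] at h1
    change ∑ j, x (φ.symm j) * col (φ.symm j) t = -∑ i with x i = 1, col i t
    linarith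
  let M : Submodule ℤ (T → ℤ) := Submodule.span ℤ (Set.range a)
  have haM : ∀ j, a j ∈ M := fun j => Submodule.subset_span ⟨j, rfl⟩
  have hbM : b ∈ M := by
    rw [← hxab]
    exact Submodule.sum_mem _ fun j _ => Submodule.smul_mem _ _ (haM j)
  let a' : Fin N → M := fun j => ⟨a j, haM j⟩
  let b' : M := ⟨b, hbM⟩
  have hs' : Submodule.span ℤ (Set.range a') = ⊤ := by
    have h1 : Set.range a' = (Subtype.val ⁻¹' (Set.range a) : Set M) := by
      ext u
      constructor
      · rintro ⟨j, rfl⟩; exact ⟨j, rfl⟩
      · rintro ⟨j, hj⟩; exact ⟨j, Subtype.ext hj⟩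
    rw [h1]
    exact Submodule.span_span_coe_preimage
  have hfin : Module.Finite ℤ M := Module.Finite.span_of_finite ℤ (Set.finite_range a)
  let m := Module.finrank ℤ M
  let e : Basis (Fin m) ℤ M := Module.finBasis ℤ M
  have hmN : m ≤ N := by
    have := finrank_range_le_card (R := ℤ) a
    simpa [m, M, Set.finrank] using this
  -- a nonzero maximal minor
  obtain ⟨R, hR⟩ := exists_rows (fun k => (e k : T → ℤ))
    (e.linearIndependent.map' M.subtype (Submodule.ker_subtype M))
  let res : M →ₗ[ℤ] (Fin m → ℤ) :=
    { toFun := fun v l => (v : T → ℤ) (R l)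
      map_add' := fun u v => by ext l; rfl
      map_smul' := fun r v => by ext l; rfl }
  let ω : M [⋀^Fin m]→ₗ[ℤ] ℤ := Matrix.detRowAlternating.compLinearMap res
  have hω : ∀ v : Fin m → M, ω v = Matrix.det (Matrix.of fun k l => (v k : T → ℤ) (R l)) :=
    fun v => rfl
  have hωe : ω e ≠ 0 := by rw [hω]; exact hR
  have hωdet : ∀ v, ω v = ω e * e.det v := by
    intro v
    have := DFunLike.congr_fun (AlternatingMap.eq_smul_basis_det e ω) v
    simpa using this
  have hbound : ∀ v : Fin m → M, (∀ k, v k = b' ∨ ∃ i, v k = a' i) → |e.det v| ≤ 2 ^ m := by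
    intro v hv
    have hle : |e.det v| ≤ |ω v| := by
      rw [hωdet, abs_mul]
      have := Int.one_le_abs hωe
      nlinarith [abs_nonneg (e.det v)]
    refine hle.trans ?_
    -- labels
    let vec : Option (Fin N) → M := fun o => o.elim b' a'
    have hlab : ∀ k, ∃ o, v k = vec o := by
      intro k
      rcases hv k with h | ⟨i, hi⟩
      · exact ⟨none, h⟩
      · exact ⟨some i, hi⟩
    choose lab hlab using hlab
    by_cases hinj : Function.Injective lab
    · let label : Fin n → Option (Fin N) := fun i => if h : x i = 1 then none else some (φ ⟨i, h⟩)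
      -- the class of a variable
      have hκ : ∀ i, ∃ o : Option (Fin m), ∀ k, gv o k = if label i = lab k then 1 else 0 := by
        intro i
        by_cases h : ∃ k, lab k = label i
        · obtain ⟨k, hk⟩ := h
          refine ⟨some k, fun k' => ?_⟩
          rw [gv_some, ← hk]
          simp only [hinj.eq_iff]
        · push Not at h
          refine ⟨none, fun k => ?_⟩
          rw [gv_none, if_neg (Ne.symm (h k))]
      choose κ hκ using hκ
      let sg : Fin m → ℤ := fun k => if lab k = none then -1 else 1
      have hsum : ∀ (p : Fin n), (∑ i with x i = 1, (if p = i then (1 : ℤ) else 0)) =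
          if x p = 1 then 1 else 0 := by
        intro p
        simp
      have hentry : ∀ k (t : T), (v k : T → ℤ) t =
          sg k * (gv (κ t.1.1) k + gv (κ t.1.2.1) k - gv (κ t.1.2.2) k) := by
        intro k t
        rw [hlab k]
        simp only [hκ]
        rcases hk : lab k with _ | j
        · have h1 : ∀ i, (label i = none) ↔ x i = 1 := by
            intro i
            by_cases h : x i = 1
            · simp [label, h]
            · simp [label, h]
          simp only [h1, sg, hk, if_true]
          change -(∑ i with x i = 1, col i t) = _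
          simp only [col, Finset.sum_sub_distrib, Finset.sum_add_distrib, hsum]
          ring
        · have h1 : ∀ i, (label i = some j) ↔ i = φ.symm j := by
            intro i
            by_cases h : x i = 1
            · simp only [label, h, dif_pos, reduceCtorEq, false_iff]
              rintro rfl
              exact (φ.symm j).2 h
            · simp only [label, h, dif_neg, not_false_iff, Option.some.injEq]
              constructor
              · intro h2; rw [← h2]; simp
              · intro h2
                have : (⟨i, h⟩ : V) = φ.symm j := Subtype.ext h2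
                rw [this]; simp
          simp only [h1, sg, hk, reduceCtorEq, if_false, one_mul]
          change col (φ.symm j) t = _
          rfl
      have hmat : (Matrix.of fun k l => (v k : T → ℤ) (R l)) =
          Matrix.of fun k l => sg k * (Matrix.transpose (Matrix.of fun l k =>
            gv (κ (R l).1.1) k + gv (κ (R l).1.2.1) k - gv (κ (R l).1.2.2) k)) k l := by
        ext k l
        simp only [Matrix.of_apply, Matrix.transpose_apply, hentry]
      rw [hω, hmat, Matrix.det_mul_column, Matrix.det_transpose, abs_mul]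
      have h1 : |∏ k, sg k| = 1 := by
        rw [Finset.abs_prod]
        apply Finset.prod_eq_one
        intro k _
        simp only [sg]
        split_ifs <;> simp
      rw [h1, one_mul]
      exact det_triple m _ _ _
    · rw [Function.Injective] at hinj
      push Not at hinj
      obtain ⟨k1, k2, h12, hne⟩ := hinj
      have : ω v = 0 := AlternatingMap.map_eq_zero_of_eq _ _ (by rw [hlab k1, hlab k2, h12]) hne
      rw [this, abs_zero]
      positivity
  obtain ⟨y, hy, hyb⟩ := exists_small_solution (2 ^ m) N M m e a' b' hs' hbound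
  have hy1 : ∀ t, ∑ j, y j * a j t = b t := by
    intro t
    have h1 := congrArg Subtype.val hy
    simp only [a', b', AddSubmonoidClass.coe_finsetSum, Submodule.coe_smul] at h1
    rw [← h1, Finset.sum_apply]
    rfl
  let Yv : Fin n → ℤ := fun i => if h : x i = 1 then 1 else y (φ ⟨i, h⟩)
  have hY1 : ∀ i, x i = 1 → Yv i = 1 := fun i h => by simp [Yv, h]
  have hYφ : ∀ j, Yv (φ.symm j) = y j := by
    intro j
    have h : ¬ x (φ.symm j) = 1 := (φ.symm j).2
    simp [Yv, h]
  have hpow : (2 : ℤ) ^ m ≤ 2 ^ (n - 1) := pow_le_pow_right₀ (by norm_num) (hmN.trans hNn)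
  refine ⟨Yv, fun i => ?_, hY1, fun i j k hijk => ?_⟩
  · by_cases h : x i = 1
    · rw [hY1 i h, abs_one]
      exact one_le_pow₀ (by norm_num)
    · have : Yv i = y (φ ⟨i, h⟩) := by simp [Yv, h]
      rw [this]
      exact (hyb _).trans hpow
  · let t : T := ⟨(i, j, k), hijk⟩
    have h1 := hcol Yv t
    rw [hsplit] at h1
    have h2 : (∑ i with x i = 1, Yv i * col i t) = ∑ i with x i = 1, col i t :=
      Finset.sum_congr rfl fun i hi => by
        rw [hY1 i (Finset.mem_filter.mp hi).2, one_mul]
    have h3 : ∑ j : Fin N, Yv (φ.symm j) * col (φ.symm j) t = b t := by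
      rw [← hy1 t]
      exact Finset.sum_congr rfl fun j _ => by rw [hYφ]
    rw [h2, h3] at h1
    have h4 : b t = -∑ i with x i = 1, col i t := rfl
    rw [h4] at h1
    have h5 : Yv i + Yv j - Yv k = 0 := by
      have : Yv t.1.1 + Yv t.1.2.1 - Yv t.1.2.2 = 0 := by rw [← h1]; ring
      exact this
    linarith

end Pool.Agent.U280.SmallSol
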