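import Mathlib

set_option autoImplicit false

/-!
Determinants of matrices whose rows are differences of unit vectors (or zero), and of matrices
whose rows are `e_p + e_q - e_s`.
-/

namespace Pool.Agent.U280.SmallSol

open Matrix

/-- unit vector or zero -/
def gv {m : ℕ} (o : Option (Fin m)) (j : Fin m) : ℤ := if o = some j then 1 else 0

lemma gv_none {m : ℕ} (j : Fin m) : gv none j = 0 := by simp [gv]

lemma gv_some {m : ℕ} (i j : Fin m) : gv (some i) j = if i = j then 1 else 0 := by simp [gv]

lemma exists_remove {m : ℕ} (j : Fin (m + 1)) :
    ∃ f : Option (Fin (m + 1)) → Option (Fin m), ∀ o k, gv o (j.succAbove k) = gv (f o) k := by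
  have : ∀ o : Option (Fin (m + 1)), ∃ o' : Option (Fin m), ∀ k, gv o (j.succAbove k) = gv o' k := by
    intro o
    rcases o with _ | i
    · exact ⟨none, fun k => by simp [gv_none]⟩
    · by_cases h : i = j
      · refine ⟨none, fun k => ?_⟩
        rw [gv_none, gv_some, if_neg]
        rw [h]
        exact (Fin.succAbove_ne j k).symm
      · obtain ⟨k0, rfl⟩ := Fin.exists_succAbove_eq h
        refine ⟨some k0, fun k => ?_⟩
        rw [gv_some, gv_some]
        simp only [Fin.succAbove_right_inj]
  choose f hf using this
  exact ⟨f, hf⟩

lemma sum_gv_some {m : ℕ} (i : Fin m) : ∑ k, gv (some i) k = 1 := by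
  simp [gv_some]

theorem det_graph : ∀ (m : ℕ) (c d : Fin m → Option (Fin m)),
    |Matrix.det (Matrix.of fun l k => gv (c l) k - gv (d l) k)| ≤ 1 := by
  intro m
  induction m with
  | zero => intro c d; simp
  | succ m ih =>
    intro c d
    -- expansion along a row with at most one nonzero entry
    have key : ∀ (l : Fin (m + 1)) (o : Option (Fin (m + 1))) (ε : ℤ), |ε| ≤ 1 →
        (∀ k, gv (c l) k - gv (d l) k = ε * gv o k) →
        |Matrix.det (Matrix.of fun l k => gv (c l) k - gv (d l) k)| ≤ 1 := by
      intro l o ε hε hrow
      rcases o with _ | j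
      · have : Matrix.det (Matrix.of fun l k => gv (c l) k - gv (d l) k) = 0 := by
          apply Matrix.det_eq_zero_of_row_eq_zero l
          intro k
          rw [Matrix.of_apply, hrow, gv_none, mul_zero]
        rw [this]; simp
      · rw [Matrix.det_succ_row _ l]
        rw [Finset.sum_eq_single j]
        · obtain ⟨f, hf⟩ := exists_remove j
          have hsub : (Matrix.of fun l k => gv (c l) k - gv (d l) k).submatrix l.succAbove
              j.succAbove = Matrix.of fun l' k => gv ((f ∘ c ∘ l.succAbove) l') k -
                gv ((f ∘ d ∘ l.succAbove) l') k := by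
            ext l' k
            simp only [Matrix.submatrix_apply, Matrix.of_apply, hf, Function.comp_apply]
          rw [hsub, abs_mul, abs_mul, Matrix.of_apply, hrow, gv_some, if_pos rfl, mul_one,
            abs_pow, abs_neg, abs_one, one_pow, one_mul]
          calc |ε| * _ ≤ 1 * 1 := mul_le_mul hε (ih _ _) (abs_nonneg _) zero_le_one
            _ = 1 := one_mul 1
        · intro k _ hk
          rw [Matrix.of_apply, hrow, gv_some, if_neg (Ne.symm hk)]
          ring
        · intro h; exact absurd (Finset.mem_univ _) h
    by_cases h : ∀ l, (∃ i, c l = some i) ∧ (∃ i, d l = some i)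
    · have : Matrix.det (Matrix.of fun l k => gv (c l) k - gv (d l) k) = 0 := by
        rw [← Matrix.exists_mulVec_eq_zero_iff]
        refine ⟨fun _ => 1, ?_, ?_⟩
        · intro h0
          have := congrFun h0 0
          simp at this
        · ext l
          obtain ⟨⟨i, hi⟩, ⟨j, hj⟩⟩ := h l
          simp only [Matrix.mulVec, dotProduct, Matrix.of_apply, mul_one, Pi.zero_apply,
            Finset.sum_sub_distrib, hi, hj, sum_gv_some, sub_self]
      rw [this]; simp
    · push Not at h
      obtain ⟨l, hl⟩ := h
      by_cases hc : ∃ i, c l = some i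
      · have hd : d l = none := by
          rcases hd : d l with _ | j
          · rfl
          · exact absurd hd (hl hc j)
        exact key l (c l) 1 (by simp) (fun k => by rw [hd, gv_none]; ring)
      · have hc' : c l = none := by
          rcases hcc : c l with _ | j
          · rfl
          · exact absurd ⟨j, hcc⟩ hc
        exact key l (d l) (-1) (by simp) (fun k => by rw [hc', gv_none]; ring)

theorem det_triple (m : ℕ) (p q s : Fin m → Option (Fin m)) :
    |Matrix.det (Matrix.of fun l k => gv (p l) k + gv (q l) k - gv (s l) k)| ≤ 2 ^ m := by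
  have h1 : Matrix.det (Matrix.of fun l k => gv (p l) k + gv (q l) k - gv (s l) k) =
      Matrix.detRowAlternating.toMultilinearMap
        ((fun l => (fun k => gv (p l) k - gv (s l) k)) + fun l => gv (q l)) := by
    change _ = Matrix.det _
    congr 1
    ext l k
    simp only [Matrix.of_apply, Pi.add_apply]
    ring
  rw [h1, MultilinearMap.map_add_univ]
  refine (Finset.abs_sum_le_sum_abs _ _).trans ?_
  calc _ ≤ ∑ s : Finset (Fin m), (1 : ℤ) := by
        refine Finset.sum_le_sum fun S _ => ?_
        change |Matrix.det _| ≤ 1
        have h2 : (S.piecewise (fun l => (fun k => gv (p l) k - gv (s l) k)) fun l => gv (q l)) =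
            Matrix.of fun l k => gv (if l ∈ S then p l else q l) k -
              gv (if l ∈ S then s l else none) k := by
          ext l k
          by_cases hl : l ∈ S
          · simp [hl]
          · simp [hl, gv_none]
        rw [h2]
        exact det_graph m _ _
    _ = 2 ^ m := by simp

end Pool.Agent.U280.SmallSol
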